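import Pool.Agent.LibIG50.TD2

/-!
Explicit form of the Legendre normal form.
-/

open scoped Classical
open WeierstrassCurve Pool.Agent.LibBH2 Pool.Agent.LibIG50 Polynomial

namespace Pool.Agent.LibGG

open TD1 in
/-- affine change of coordinates: if `4 x³ + b₂ x² + 2 b₄ x + b₆ = 4 (x - e₁) (x - e₂) (x - e₃)` and
`δ² = e₂ - e₁`, then `x ↦ e₁ + δ² x`, `2 y + a₁ x + a₃ = 2 δ³ y` is an isomorphism from the Legendre
curve with parameter `(e₃ - e₁) / (e₂ - e₁)`. -/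
theorem leg_rel {k : Type} [Field k] [CharZero k] (W : WeierstrassCurve k) (e₁ e₂ e₃ δ : k)
    (hW : ∀ x : k, 4 * x ^ 3 + W.b₂ * x ^ 2 + 2 * W.b₄ * x + W.b₆ =
      4 * ((x - e₁) * (x - e₂) * (x - e₃))) (hδ : δ ^ 2 = e₂ - e₁) (hδ0 : δ ≠ 0)
    (lam : k) (hlam : lam = (e₃ - e₁) / (e₂ - e₁)) :
    Rel (lg lam) W δ e₁ (-(W.a₁ / 2)) (-((W.a₁ * e₁ + W.a₃) / 2)) := by
  -- coefficients of the cubic
  have c0 : W.b₆ = -4 * (e₁ * e₂ * e₃) := by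
    have := hW 0
    linear_combination this
  have c1 := hW 1
  have cm1 := hW (-1)
  have c2 := hW 2
  have hb2 : W.b₂ = -4 * (e₁ + e₂ + e₃) := by
    have h2 : (2 : k) ≠ 0 := two_ne_zero
    apply mul_left_cancel₀ h2
    linear_combination c1 + cm1 - 2 * c0
  have hb4 : W.b₄ = 2 * (e₁ * e₂ + e₁ * e₃ + e₂ * e₃) := by
    have h2 : (4 : k) ≠ 0 := by norm_num
    apply mul_left_cancel₀ h2
    linear_combination c1 - cm1
  have h21 : e₂ - e₁ ≠ 0 := by rw [← hδ]; exact pow_ne_zero 2 hδ0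
  have hl : lam * δ ^ 2 = e₃ - e₁ := by
    rw [hlam, hδ]; field_simp
  rw [WeierstrassCurve.b₂] at hb2
  rw [WeierstrassCurve.b₄] at hb4
  rw [WeierstrassCurve.b₆] at c0
  refine ⟨hδ0, ?_, ?_, ?_, ?_, ?_⟩
  · show δ * 0 = _
    ring
  · show δ ^ 2 * (-(1 + lam)) = _
    linear_combination (-1 : k) * hδ - hl - (1 / 4 : k) * hb2
  · show δ ^ 3 * 0 = _
    ring
  · show δ ^ 4 * lam = _
    linear_combination δ ^ 2 * hl + (e₃ - e₁) * hδ - (1 / 2 : k) * hb4 - (e₁ / 2) * hb2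
  · show δ ^ 6 * 0 = _
    have h := hW e₁
    rw [WeierstrassCurve.b₂, WeierstrassCurve.b₄, WeierstrassCurve.b₆] at h
    linear_combination (-1 / 4 : k) * h

open TD1 TD2 in
/-- Legendre form with `2`-adic normalisation of the parameter `κ ^ 2` -/
theorem exists_leg_rel (W : WeierstrassCurve Qb) [W.IsElliptic] :
    ∃ κ : Qb, κ ≠ 0 ∧ κ ≠ 1 ∧ κ ≠ -1 ∧ ‖jj κ‖ ≤ 1 ∧ ‖jj (1 + κ)‖ = 1 ∧
      ∃ u r s t : Qb, Rel (lg (κ ^ 2)) W u r s t := by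
  obtain ⟨e₁, e₂, e₃, h12, h13, h23, hW⟩ := exists_roots W
  obtain ⟨f₁, f₂, f₃, g12, g13, g23, hn1, hn2, hf⟩ := order_roots e₁ e₂ e₃ h12 h13 h23
  have g21 : f₂ - f₁ ≠ 0 := sub_ne_zero.2 g12.symm
  have g31 : f₃ - f₁ ≠ 0 := sub_ne_zero.2 g13.symm
  have g32 : f₃ - f₂ ≠ 0 := sub_ne_zero.2 g23.symm
  obtain ⟨δ, hδ⟩ := IsAlgClosed.exists_pow_nat_eq (f₂ - f₁) (n := 2) (by norm_num)
  obtain ⟨κ, hκ⟩ := IsAlgClosed.exists_pow_nat_eq ((f₃ - f₁) / (f₂ - f₁)) (n := 2) (by norm_num)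
  have hδ0 : δ ≠ 0 := by
    rintro rfl
    apply g21
    rw [← hδ]; ring
  have hpos : 0 < ‖jj (f₂ - f₁)‖ := norm_pos_iff.2 ((map_ne_zero jj).2 g21)
  have hle : ‖jj κ‖ ≤ 1 := by
    have h1 : ‖jj κ‖ ^ 2 ≤ 1 := by
      rw [← norm_pow, ← map_pow, hκ, map_div₀, norm_div]
      exact (div_le_one hpos).2 hn1
    exact (pow_le_one_iff_of_nonneg (norm_nonneg _) (by norm_num)).1 h1
  -- the two longer sides are equal
  have heq : ‖jj (f₂ - f₁)‖ ≤ ‖jj (f₃ - f₂)‖ := by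
    have h1 : ‖jj (f₂ - f₁)‖ ≤ max ‖jj (f₃ - f₁)‖ ‖jj (f₂ - f₃)‖ := by
      have : jj (f₂ - f₁) = jj (f₃ - f₁) + jj (f₂ - f₃) := by
        rw [← map_add]; congr 1; ring
      rw [this]
      exact norm_add_le_max' _ _
    have h2 : ‖jj (f₂ - f₃)‖ = ‖jj (f₃ - f₂)‖ := by
      rw [← neg_sub f₃ f₂, map_neg, norm_neg]
    rw [h2] at h1
    exact h1.trans (max_le hn2 le_rfl)
  have hk1 : ‖jj (1 + κ)‖ ≤ 1 := by
    rw [map_add, map_one]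
    refine (norm_add_le_max' _ _).trans (max_le ?_ hle)
    rw [norm_one]
  have hk2 : ‖jj (κ - 1)‖ ≤ 1 := by
    rw [map_sub, map_one, sub_eq_add_neg]
    refine (norm_add_le_max' _ _).trans (max_le hle ?_)
    rw [norm_neg, norm_one]
  have hprod : 1 ≤ ‖jj (1 + κ)‖ * ‖jj (κ - 1)‖ := by
    have h1 : (1 + κ) * (κ - 1) = (f₃ - f₂) / (f₂ - f₁) := by
      have : (1 + κ) * (κ - 1) = κ ^ 2 - 1 := by ring
      rw [this, hκ]
      field_simp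
      ring
    rw [← norm_mul, ← map_mul, h1, map_div₀, norm_div]
    exact (one_le_div hpos).2 heq
  have hk3 : ‖jj (1 + κ)‖ = 1 := by
    apply le_antisymm hk1
    calc 1 ≤ ‖jj (1 + κ)‖ * ‖jj (κ - 1)‖ := hprod
      _ ≤ ‖jj (1 + κ)‖ * 1 := mul_le_mul_of_nonneg_left hk2 (norm_nonneg _)
      _ = ‖jj (1 + κ)‖ := mul_one _
  refine ⟨κ, ?_, ?_, ?_, hle, hk3, ?_⟩
  · rintro rfl
    rw [zero_pow (by norm_num)] at hκ
    exact (div_ne_zero g31 g21) hκ.symm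
  · rintro rfl
    simp only [sub_self, map_zero, norm_zero, mul_zero] at hprod
    exact absurd hprod (by norm_num)
  · rintro rfl
    simp only [add_neg_cancel, map_zero, norm_zero, zero_mul] at hprod
    exact absurd hprod (by norm_num)
  · exact ⟨_, _, _, _, leg_rel W f₁ f₂ f₃ δ (fun x => by rw [hW x, hf x]) hδ hδ0 (κ ^ 2) hκ⟩


end Pool.Agent.LibGG
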