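import Pool.Agent.LibGG.G6
import Pool.Agent.LibGG.Leg
import Pool.Agent.LibIG50.Main

/-!
[G4] the parameter.
-/

open WeierstrassCurve Pool.Agent.LibBH2 Pool.Agent.LibIG50 Pool.Agent.LibCHd
open scoped Classical

namespace Pool.Agent.LibGG

/-- the abscissa of a point of order two is a root of the `2`-torsion polynomial -/
theorem two_torsion_root {K : Type} [Field K] (E : WeierstrassCurve K) {x y : K}
    (h : E.toAffine.Nonsingular x y) (h2 : 2 • (Affine.Point.some x y h : E.toAffine.Point) = 0) :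
    4 * x ^ 3 + E.b₂ * x ^ 2 + 2 * E.b₄ * x + E.b₆ = 0 := by
  have h3 : y = E.toAffine.negY x y := by
    by_contra hne
    rw [two_smul, Affine.Point.add_some (fun h4 => hne h4.2)] at h2
    exact absurd h2 (Affine.Point.some_ne_zero _)
  have h4 := (E.toAffine.equation_iff x y).1 h.1
  rw [Affine.negY] at h3
  simp only [WeierstrassCurve.b₂, WeierstrassCurve.b₄, WeierstrassCurve.b₆]
  linear_combination (-4 : K) * h4 + (2 * y + E.a₁ * x + E.a₃) * h3

theorem exists_roots_over {K : Type} [Field K] [Algebra K Qb] (E : WeierstrassCurve K)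
    [E.IsElliptic] (e : K) (he : 4 * e ^ 3 + E.b₂ * e ^ 2 + 2 * E.b₄ * e + E.b₆ = 0) :
    ∃ e₁ e₂ : Qb, e₁ ≠ e₂ ∧ e₁ ≠ algebraMap K Qb e ∧ e₂ ≠ algebraMap K Qb e ∧
      ∀ x : Qb, 4 * x ^ 3 + (E⁄Qb).b₂ * x ^ 2 + 2 * (E⁄Qb).b₄ * x + (E⁄Qb).b₆ =
        4 * ((x - e₁) * (x - e₂) * (x - algebraMap K Qb e)) := by
  have hell : (E⁄Qb).IsElliptic := inferInstanceAs (E.map (algebraMap K Qb)).IsElliptic
  obtain ⟨f₁, f₂, f₃, h12, h13, h23, hf⟩ := TD2.exists_roots (E⁄Qb)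
  have h0 : 4 * (algebraMap K Qb e) ^ 3 + (E⁄Qb).b₂ * (algebraMap K Qb e) ^ 2 +
      2 * (E⁄Qb).b₄ * (algebraMap K Qb e) + (E⁄Qb).b₆ = 0 := by
    have h1 := congrArg (algebraMap K Qb) he
    rw [map_zero] at h1
    rw [← h1]
    have hb2 : (E⁄Qb).b₂ = algebraMap K Qb E.b₂ := E.map_b₂ (algebraMap K Qb)
    have hb4 : (E⁄Qb).b₄ = algebraMap K Qb E.b₄ := E.map_b₄ (algebraMap K Qb)
    have hb6 : (E⁄Qb).b₆ = algebraMap K Qb E.b₆ := E.map_b₆ (algebraMap K Qb)
    rw [hb2, hb4, hb6]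
    simp only [map_add, map_mul, map_pow, map_ofNat]
  rw [hf] at h0
  have h1 : (algebraMap K Qb e - f₁) * (algebraMap K Qb e - f₂) * (algebraMap K Qb e - f₃) = 0 := by
    rcases mul_eq_zero.1 h0 with h | h
    · norm_num at h
    · exact h
  rcases mul_eq_zero.1 h1 with h | h
  · rcases mul_eq_zero.1 h with h | h
    · have h2 : algebraMap K Qb e = f₁ := sub_eq_zero.1 h
      rw [h2]
      exact ⟨f₂, f₃, h23, h12.symm, h13.symm, fun x => by rw [hf]; ring⟩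
    · have h2 : algebraMap K Qb e = f₂ := sub_eq_zero.1 h
      rw [h2]
      exact ⟨f₁, f₃, h13, h12, h23.symm, fun x => by rw [hf]; ring⟩
  · have h2 : algebraMap K Qb e = f₃ := sub_eq_zero.1 h
    rw [h2]
    exact ⟨f₁, f₂, h12, h13, h23, hf⟩

theorem conj_roots {K : Type} [Field K] [Algebra K Qb] (E : WeierstrassCurve K) (e : K)
    (e₁ e₂ : Qb) (h12 : e₁ ≠ e₂) (h13 : e₁ ≠ algebraMap K Qb e) (h23 : e₂ ≠ algebraMap K Qb e)
    (hf : ∀ x : Qb, 4 * x ^ 3 + (E⁄Qb).b₂ * x ^ 2 + 2 * (E⁄Qb).b₄ * x + (E⁄Qb).b₆ =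
        4 * ((x - e₁) * (x - e₂) * (x - algebraMap K Qb e))) (σ : Qb ≃ₐ[K] Qb) :
    (σ e₁ = e₁ ∧ σ e₂ = e₂) ∨ (σ e₁ = e₂ ∧ σ e₂ = e₁) := by
  have hb2 : (E⁄Qb).b₂ = algebraMap K Qb E.b₂ := E.map_b₂ (algebraMap K Qb)
  have hb4 : (E⁄Qb).b₄ = algebraMap K Qb E.b₄ := E.map_b₄ (algebraMap K Qb)
  have hb6 : (E⁄Qb).b₆ = algebraMap K Qb E.b₆ := E.map_b₆ (algebraMap K Qb)
  -- conjugates of roots are roots
  have hroot : ∀ z : Qb, (z - e₁) * (z - e₂) * (z - algebraMap K Qb e) = 0 →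
      (σ z - e₁) * (σ z - e₂) * (σ z - algebraMap K Qb e) = 0 := by
    intro z hz
    have h1 := hf z
    rw [hz, mul_zero] at h1
    have h2 := congrArg σ h1
    rw [map_zero, hb2, hb4, hb6] at h2
    simp only [map_add, map_mul, map_pow, map_ofNat, AlgEquiv.commutes] at h2
    have h3 := hf (σ z)
    rw [hb2, hb4, hb6, h2] at h3
    rcases mul_eq_zero.1 h3.symm with h | h
    · norm_num at h
    · exact h
  have hne : ∀ z : Qb, z ≠ algebraMap K Qb e → σ z ≠ algebraMap K Qb e := by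
    intro z hz h
    apply hz
    apply σ.injective
    rw [h, AlgEquiv.commutes]
  have key : ∀ z : Qb, z ≠ algebraMap K Qb e →
      (z - e₁) * (z - e₂) * (z - algebraMap K Qb e) = 0 → σ z = e₁ ∨ σ z = e₂ := by
    intro z hz h
    rcases mul_eq_zero.1 (hroot z h) with h | h
    · rcases mul_eq_zero.1 h with h | h
      · exact Or.inl (sub_eq_zero.1 h)
      · exact Or.inr (sub_eq_zero.1 h)
    · exact absurd (sub_eq_zero.1 h) (hne z hz)
  have hd : σ e₁ ≠ σ e₂ := fun h => h12 (σ.injective h)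
  rcases key e₁ h13 (by simp) with h1 | h1 <;> rcases key e₂ h23 (by simp) with h2 | h2
  · exact absurd (h1.trans h2.symm) hd
  · exact Or.inl ⟨h1, h2⟩
  · exact Or.inr ⟨h1, h2⟩
  · exact absurd (h1.trans h2.symm) hd

open TD1 in
/-- [G4] Proof. `P` torsion: `t = 1/32`. Otherwise let `e₃` be the abscissa of `T` (a root of the
`2`-torsion polynomial, in `K`) and `e₁`, `e₂` the other two roots in `Qb`; an automorphism over `K`
fixes or exchanges them. The Legendre form with the parameter `lam = (e₃ - e₁) / (e₂ - e₁)` and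
`deep_mult` give `N > 0` such that `N • P` has Legendre abscissa `t = (x - e₁) / (e₂ - e₁)`, `x` in `K`
the abscissa of `N • P`, with `32 < ‖jj t‖`. `σ t = t` or `σ t = (x - e₂) / (e₁ - e₂) = 1 - t`. -/
theorem exists_t (K : Type) [Field K] [NumberField K] [Algebra K Qb] (E₀ : WeierstrassCurve K)
    [E₀.IsElliptic] (T P : E₀.toAffine.Point) (hT : T ≠ 0) (hT' : 2 • T = 0) :
    ∃ t : Qb, 32 ≤ ‖jj t‖ ∧ (∀ σ : Qb ≃ₐ[K] Qb, σ t = t ∨ σ t = 1 - t) ∧
      constPt Qb P ∈ Gam t (E₀⁄Qb) := by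
  by_cases hP : IsOfFinAddOrder P
  · refine ⟨(2 ^ 5)⁻¹, ?_, fun σ => Or.inl ?_, ?_⟩
    · rw [map_inv₀, map_pow, norm_inv, norm_pow, norm_two]
      norm_num
    · rw [map_inv₀, map_pow, map_ofNat]
    · obtain ⟨n, hn, h⟩ := isOfFinAddOrder_iff_nsmul_eq_zero.1 hP
      refine ⟨n, hn, ?_⟩
      change n • cHom E₀ P ∈ _
      rw [← map_nsmul, h, map_zero]
      exact AddSubgroup.zero_mem _
  rcases T with _ | ⟨xT, yT, hTn⟩
  · exact absurd rfl hT
  obtain ⟨e₁, e₂, h12, h13, h23, hf⟩ := exists_roots_over E₀ xT (two_torsion_root E₀ hTn hT')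
  have h21 : e₂ - e₁ ≠ 0 := sub_ne_zero.2 h12.symm
  obtain ⟨δ, hδ⟩ := IsAlgClosed.exists_pow_nat_eq (e₂ - e₁) (n := 2) (by norm_num)
  have hδ0 : δ ≠ 0 := by
    rintro rfl
    apply h21
    rw [← hδ]; ring
  set lam : Qb := (algebraMap K Qb xT - e₁) / (e₂ - e₁) with hlam
  have hR := leg_rel (E₀⁄Qb) e₁ e₂ (algebraMap K Qb xT) δ hf hδ hδ0 lam hlam
  have hl0 : lam ≠ 0 := div_ne_zero (sub_ne_zero.2 h13.symm) h21
  have hl1 : lam ≠ 1 := by
    intro h
    rw [hlam, div_eq_one_iff_eq h21] at h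
    exact h23 (sub_left_injective h).symm
  obtain ⟨P', hP'⟩ := (vc_bijective hR).2 (constPt Qb P)
  have hP'' : ¬ IsOfFinAddOrder P' := by
    intro h
    have h1 := (vc hR).isOfFinAddOrder h
    rw [hP'] at h1
    apply hP
    rw [isOfFinAddOrder_iff_nsmul_eq_zero] at h1 ⊢
    obtain ⟨n, hn, h2⟩ := h1
    refine ⟨n, hn, ?_⟩
    apply constPt_injective K E₀
    change cHom E₀ (n • P) = cHom E₀ 0
    rw [map_nsmul, map_zero]
    exact h2
  obtain ⟨N, hN, x, y, h, e, hx⟩ := deep_mult lam hl0 hl1 P' hP'' 32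
  -- the multiple of `P`
  have h5 : (constPt Qb (N • P) : (E₀⁄Qb).toAffine.Point) = vc hR (Affine.Point.some x y h) := by
    rw [← e, map_nsmul, hP']
    exact map_nsmul (cHom E₀) N P
  refine ⟨x, hx.le, fun σ => ?_, N, hN, ?_⟩
  · rcases hNP : N • P with _ | ⟨X, Y, hXY⟩
    · rw [hNP, vc_some] at h5
      exact absurd h5.symm (Affine.Point.some_ne_zero _)
    · rw [hNP, vc_some] at h5
      have h6 : algebraMap K Qb X = δ ^ 2 * x + e₁ := (Affine.Point.some.inj h5).1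
      have h7 : x = (algebraMap K Qb X - e₁) / (e₂ - e₁) := by
        rw [h6, hδ]
        field_simp
        ring
      have h8 : σ x = (algebraMap K Qb X - σ e₁) / (σ e₂ - σ e₁) := by
        rw [h7, map_div₀, map_sub, map_sub, AlgEquiv.commutes]
      rcases conj_roots E₀ xT e₁ e₂ h12 h13 h23 hf σ with ⟨h9, h10⟩ | ⟨h9, h10⟩
      · left
        rw [h8, h9, h10, ← h7]
      · right
        rw [h8, h9, h10, h7]
        have h12' : e₁ - e₂ ≠ 0 := sub_ne_zero.2 h12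
        field_simp
        ring
  · have h9 : N • (constPt Qb P : (E₀⁄Qb).toAffine.Point) = vc hR (Affine.Point.some x y h) := by
      rw [← h5]
      exact (map_nsmul (cHom E₀) N P).symm
    rw [h9]
    apply AddSubgroup.subset_closure
    exact ⟨lam, y, h, vc hR, hl0, hl1, vc_algMap hR, rfl⟩

end Pool.Agent.LibGG
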