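import Pool.Agent.LibGG.Defs
import Pool.Agent.LibGG.Leg
import Pool.Agent.LibIG50.Main

/-!
[G5] points of large degree.
-/

open WeierstrassCurve Pool.Agent.LibBH2 Pool.Agent.LibIG50 Pool.Agent.LibCHd
open scoped Classical

namespace Pool.Agent.LibGG

/-- the value group of a finite extension whose degree divides `D` -/
theorem finite_norm_dvd (M : IntermediateField ℚ_[2] L2) [FiniteDimensional ℚ_[2] M] (D : ℕ)
    (hD : Module.finrank ℚ_[2] M ∣ D) (z : L2) (hz : z ∈ M) (hz0 : z ≠ 0) :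
    ∃ m : ℤ, ‖z‖ ^ D = (2 : ℝ) ^ m := by
  set z' : M := ⟨z, hz⟩ with hz'
  have hmin : minpoly ℚ_[2] z' = minpoly ℚ_[2] z :=
    (minpoly.algebraMap_eq (B := M) (B' := L2) (algebraMap M L2).injective z').symm
  have hdvd : (minpoly ℚ_[2] z).natDegree ∣ D := by
    rw [← hmin]
    exact (minpoly.degree_dvd (Algebra.IsIntegral.isIntegral z')).trans hD
  obtain ⟨e, he⟩ := hdvd
  have hint : IsIntegral ℚ_[2] z := Algebra.IsIntegral.isIntegral z
  have hpos : 0 < (minpoly ℚ_[2] z).natDegree := minpoly.natDegree_pos hint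
  have hc : (minpoly ℚ_[2] z).coeff 0 ≠ 0 := minpoly.coeff_zero_ne_zero hint hz0
  have h1 : ‖z‖ ^ (minpoly ℚ_[2] z).natDegree = ‖(minpoly ℚ_[2] z).coeff 0‖ := by
    rw [← PadicAlgCl.spectralNorm_eq, spectralNorm.spectralNorm_eq_norm_coeff_zero_rpow]
    rw [← Real.rpow_natCast, ← Real.rpow_mul (norm_nonneg _), one_div,
      inv_mul_cancel₀ (by exact_mod_cast hpos.ne'), Real.rpow_one]
  refine ⟨(-((minpoly ℚ_[2] z).coeff 0).valuation) * e, ?_⟩
  rw [he, pow_mul, h1, Padic.norm_eq_zpow_neg_valuation hc, zpow_mul, zpow_natCast]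
  norm_num

theorem fd_adjoin (S : Set L2) (hS : S.Finite) :
    FiniteDimensional ℚ_[2] (IntermediateField.adjoin ℚ_[2] S) := by
  have := hS.to_subtype
  exact IntermediateField.finiteDimensional_adjoin
    (fun x _ => (Algebra.IsAlgebraic.isAlgebraic (R := ℚ_[2]) x).isIntegral)

theorem finrank_single (z : L2) :
    Module.finrank ℚ_[2] (IntermediateField.adjoin ℚ_[2] {z}) = (minpoly ℚ_[2] z).natDegree :=
  IntermediateField.adjoin.finrank (Algebra.IsIntegral.isIntegral z)

theorem finrank_crd {W : WeierstrassCurve Qb} (P : W.toAffine.Point) (N : ℕ)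
    (h : ∀ u ∈ crd P, (minpoly ℚ_[2] (jj u)).natDegree ≤ N) :
    Module.finrank ℚ_[2] (IntermediateField.adjoin ℚ_[2] (jj '' crd P)) ≤ (N + 1) ^ 2 := by
  rcases P with _ | ⟨x, y, hP⟩
  · have : jj '' crd (Affine.Point.zero : W.toAffine.Point) = ∅ := by simp [crd]
    rw [this, IntermediateField.adjoin_empty, IntermediateField.finrank_bot]
    exact Nat.one_le_pow _ _ (Nat.succ_pos _)
  · have h1 : jj '' crd (Affine.Point.some x y hP : W.toAffine.Point) = {jj x} ∪ {jj y} := by
      change jj '' {x, y} = _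
      rw [Set.image_pair]
      rfl
    rw [h1, IntermediateField.adjoin_union]
    refine (IntermediateField.finrank_sup_le _ _).trans ?_
    rw [finrank_single, finrank_single, pow_two]
    exact Nat.mul_le_mul ((h x (by simp [crd])).trans (Nat.le_succ _))
      ((h y (by simp [crd])).trans (Nat.le_succ _))

open TD1 in
/-- [G5a] there are points in `gens t W` all of whose multiples have coordinates of large degree over
the `2`-adic numbers -/
theorem gens_degree (W : WeierstrassCurve Qb) [W.IsElliptic] (t : Qb) (ht : 32 ≤ ‖jj t‖) (N : ℕ) :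
    ∃ R ∈ gens t W, ∀ c : ℤ, c ≠ 0 → ∃ u ∈ crd (c • R), N < (minpoly ℚ_[2] (jj u)).natDegree := by
  by_contra hcon
  push Not at hcon
  obtain ⟨κ, hκ0, hκ1, hκm, hκn, hκp, u₀, r₀, s₀, t₀, hRel⟩ := exists_leg_rel W
  obtain ⟨κ', C, f, hf, hκ'0, hlo, hhi⟩ := base_tower κ ⟨hκ0, hκ1, hκm, hκn, hκp⟩
  obtain ⟨ω, hω1, hω2, htow⟩ := two_towers κ' hκ'0 hlo hhi
  have hlamn : ‖jj (κ ^ 2)‖ ≤ 1 := by
    rw [map_pow, norm_pow]
    exact pow_le_one₀ (norm_nonneg _) hκn
  have ht1 : 1 < ‖jj t‖ := by linarith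
  set T₀ : Set L2 := {jj (κ ^ 2), jj u₀, jj r₀, jj s₀, jj t₀} with hT₀
  have hT₀fin : T₀.Finite := by
    rw [hT₀]; exact Set.toFinite _
  set M₀ := IntermediateField.adjoin ℚ_[2] T₀ with hM₀
  have hM₀fd : FiniteDimensional ℚ_[2] M₀ := fd_adjoin T₀ hT₀fin
  -- every deep image has its abscissa in every field which contains the coordinates of a multiple
  have habs : ∀ (a D : Qb) (F : (lg (a ^ 2)).toAffine.Point → (lg (κ ^ 2)).toAffine.Point),
      Good a → IsDeep (a ^ 2) (κ ^ 2) D F → ∃ (X : Qb) (S : W.toAffine.Point),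
        ‖jj (X / (D * t) - 1)‖ ≤ 1 / ‖jj t‖ ∧
        (∀ v ∈ crd S, (minpoly ℚ_[2] (jj v)).natDegree ≤ N) ∧
        ∀ M : IntermediateField ℚ_[2] L2, T₀ ⊆ M → (∀ v ∈ crd S, jj v ∈ M) → jj X ∈ M := by
    intro a D F ha hF
    have hell : (lg (a ^ 2)).toAffine.Δ ≠ 0 := by
      have h1 : a ^ 2 ≠ 0 := pow_ne_zero 2 ha.1
      have h2 : a ^ 2 ≠ 1 := ha.sq_ne
      have h3 : (lg (a ^ 2)).toAffine.Δ = 16 * (a ^ 2) ^ 2 * (a ^ 2 - 1) ^ 2 := by
        simp only [lg, WeierstrassCurve.Δ, WeierstrassCurve.b₂, WeierstrassCurve.b₄,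
          WeierstrassCurve.b₆, WeierstrassCurve.b₈]
        ring
      rw [h3]
      exact mul_ne_zero (mul_ne_zero (by norm_num) (pow_ne_zero 2 h1))
        (pow_ne_zero 2 (sub_ne_zero.2 h2))
    obtain ⟨y, hy⟩ := IsAlgClosed.exists_pow_nat_eq (t * (t - 1) * (t - a ^ 2)) two_pos
    have hns : (lg (a ^ 2)).toAffine.Nonsingular t y := by
      apply (Affine.equation_iff_nonsingular_of_Δ_ne_zero hell).1
      rw [Affine.equation_iff]
      simp only [lg]
      linear_combination hy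
    obtain ⟨X, Y, H, e1, e2⟩ := hF.asym t y hns ht1
    have hmem : vc hRel (F (Affine.Point.some t y hns)) ∈ gens t W :=
      ⟨a ^ 2, y, hns, vc hRel ∘ F, pow_ne_zero 2 ha.1, ha.sq_ne,
        (vc_algMap hRel).comp hF.alg, rfl⟩
    obtain ⟨c, hc0, hc⟩ := hcon _ hmem
    refine ⟨X, _, e2, hc, fun M hTM hSM => ?_⟩
    rw [e1] at hSM
    have hlamM : jj (κ ^ 2) ∈ M := hTM (by rw [hT₀]; simp)
    have hu : jj u₀ ∈ M := hTM (by rw [hT₀]; simp)
    have hr : jj r₀ ∈ M := hTM (by rw [hT₀]; simp)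
    have hs : jj s₀ ∈ M := hTM (by rw [hT₀]; simp)
    have ht : jj t₀ ∈ M := hTM (by rw [hT₀]; simp)
    have hu0 : u₀ ≠ 0 := hRel.h0
    have hco : ∀ v ∈ crd (c • (Affine.Point.some X Y H : (lg (κ ^ 2)).toAffine.Point)),
        jj v ∈ M := by
      rw [← map_zsmul] at hSM
      rcases hR : c • (Affine.Point.some X Y H : (lg (κ ^ 2)).toAffine.Point) with
        _ | ⟨X₁, Y₁, H₁⟩
      · intro v hv
        exact absurd hv (Set.notMem_empty v)
      · rw [hR, vc_some] at hSM
        have h1 : jj (u₀ ^ 2 * X₁ + r₀) ∈ M := hSM _ (by simp [crd])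
        have h2 : jj (u₀ ^ 3 * Y₁ + s₀ * u₀ ^ 2 * X₁ + t₀) ∈ M := hSM _ (by simp [crd])
        have h3 : jj X₁ ∈ M := by
          have h4 : jj X₁ = (jj (u₀ ^ 2 * X₁ + r₀) - jj r₀) / jj u₀ ^ 2 := by
            rw [← map_sub, ← map_pow, ← map_div₀]
            congr 1
            field_simp
            ring
          rw [h4]
          exact M.div_mem (M.sub_mem h1 hr) (pow_mem hu 2)
        have h5 : jj Y₁ ∈ M := by
          have h6 : jj Y₁ = (jj (u₀ ^ 3 * Y₁ + s₀ * u₀ ^ 2 * X₁ + t₀) -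
              jj s₀ * jj u₀ ^ 2 * jj X₁ - jj t₀) / jj u₀ ^ 3 := by
            rw [← map_pow, ← map_pow, ← map_mul, ← map_mul, ← map_sub, ← map_sub, ← map_div₀]
            congr 1
            field_simp
            ring
          rw [h6]
          exact M.div_mem (M.sub_mem (M.sub_mem h2 (M.mul_mem (M.mul_mem hs (pow_mem hu 2)) h3)) ht)
            (pow_mem hu 3)
        intro v hv
        rcases hv with rfl | hv
        · exact h3
        · rw [Set.mem_singleton_iff] at hv
          rw [hv]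
          exact h5
    -- norm of `X`
    have hXn : 1 < ‖jj X‖ := by
      have hD0 : D ≠ 0 := by
        rintro rfl
        have := hF.one_le
        rw [map_zero, norm_zero] at this
        linarith
      have ht0 : t ≠ 0 := by
        rintro rfl
        rw [map_zero, norm_zero] at ht1
        linarith
      have h32 : 1 / ‖jj t‖ < 1 := by
        rw [div_lt_one (by linarith)]; exact ht1
      have h7 := norm_one_add (lt_of_le_of_lt e2 h32)
      have h8 : X = D * t * (1 + (X / (D * t) - 1)) := by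
        field_simp
        ring
      rw [h8, map_mul, norm_mul, h7, mul_one, map_mul, norm_mul]
      calc (1 : ℝ) < ‖jj t‖ := ht1
        _ ≤ ‖jj D‖ * ‖jj t‖ := le_mul_of_one_le_left (norm_nonneg _) hF.one_le
    -- transport to `L2`
    obtain ⟨gg, hgg⟩ := exists_lgHom jj (κ ^ 2) (lg (jj (κ ^ 2))) (lg_map _ _)
    obtain ⟨H', e3⟩ := hgg X Y H
    refine abscissa_mem2 M ⟨jj (κ ^ 2), hlamM⟩ hlamn (jj X) (jj Y) H' hXn c hc0 ?_
    intro u w h' hu
    have h9 : gg (c • (Affine.Point.some X Y H : (lg (κ ^ 2)).toAffine.Point)) =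
        Affine.Point.some u w h' := by
      rw [map_zsmul, e3]; exact hu
    rcases hR : c • (Affine.Point.some X Y H : (lg (κ ^ 2)).toAffine.Point) with _ | ⟨X₁, Y₁, H₁⟩
    · rw [hR, show (Affine.Point.zero : (lg (κ ^ 2)).toAffine.Point) = 0 from rfl, map_zero] at h9
      exact absurd h9.symm (by simp)
    · rw [hR] at hco h9
      obtain ⟨H₂, e4⟩ := hgg X₁ Y₁ H₁
      rw [e4] at h9
      simp only [Affine.Point.some.injEq] at h9
      rw [← h9.1, ← h9.2]
      exact ⟨hco X₁ (by simp [crd]), hco Y₁ (by simp [crd])⟩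
  -- discreteness
  set D : ℕ := (Module.finrank ℚ_[2] M₀ * ((N + 1) ^ 2 * (N + 1) ^ 2)).factorial with hDdef
  have hD : 0 < D := Nat.factorial_pos _
  have key : ∀ n : ℕ, ∃ l : ℤ, ω ^ D = ((2 : ℝ) ^ l) ^ (2 ^ n) := by
    intro n
    obtain ⟨a, b, A, B, F, G, ha, hb, hF, hG, hAB⟩ := htow n
    have hA0 : A ≠ 0 := by
      rintro rfl
      have := hF.one_le
      rw [map_zero, norm_zero] at this
      linarith
    have hB0 : B ≠ 0 := by
      rintro rfl
      have := hG.one_le
      rw [map_zero, norm_zero] at this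
      linarith
    have hC0 : C ≠ 0 := by
      rintro rfl
      have := hf.one_le
      rw [map_zero, norm_zero] at this
      linarith
    obtain ⟨X, S, hX, hSd, hXM'⟩ := habs a _ _ ha (hf.comp hF)
    obtain ⟨Y, S', hY, hSd', hYM'⟩ := habs b _ _ hb (hf.comp hG)
    -- the field
    set M₁ := IntermediateField.adjoin ℚ_[2] (jj '' crd S) with hM₁
    set M₂ := IntermediateField.adjoin ℚ_[2] (jj '' crd S') with hM₂
    have hM₁fd : FiniteDimensional ℚ_[2] M₁ := fd_adjoin _ ((crd_finite S).image _)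
    have hM₂fd : FiniteDimensional ℚ_[2] M₂ := fd_adjoin _ ((crd_finite S').image _)
    set M := M₀ ⊔ (M₁ ⊔ M₂) with hM
    have hMfd : FiniteDimensional ℚ_[2] M := by
      rw [hM]; infer_instance
    have hMdvd : Module.finrank ℚ_[2] M ∣ D := by
      apply Nat.dvd_factorial Module.finrank_pos
      refine (IntermediateField.finrank_sup_le _ _).trans (Nat.mul_le_mul le_rfl ?_)
      refine (IntermediateField.finrank_sup_le _ _).trans ?_
      exact Nat.mul_le_mul (finrank_crd S N hSd) (finrank_crd S' N hSd')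
    have hXM : jj X ∈ M := by
      apply hXM'
      · exact fun z hz => (le_sup_left : M₀ ≤ M) (IntermediateField.subset_adjoin _ _ hz)
      · exact fun v hv => (le_sup_left.trans le_sup_right : M₁ ≤ M)
          (IntermediateField.subset_adjoin _ _ ⟨v, hv, rfl⟩)
    have hYM : jj Y ∈ M := by
      apply hYM'
      · exact fun z hz => (le_sup_left : M₀ ≤ M) (IntermediateField.subset_adjoin _ _ hz)
      · exact fun v hv => (le_sup_right.trans le_sup_right : M₂ ≤ M)
          (IntermediateField.subset_adjoin _ _ ⟨v, hv, rfl⟩)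
    have hr : C * A / (C * B) = A / B := mul_div_mul_left _ _ hC0
    have hub : 8 * ‖jj (A / B - 1)‖ < 1 := by
      by_contra hge
      push Not at hge
      have := one_le_pow₀ hge (n := 2 ^ n)
      linarith
    have hlb : 1 / 4 < 8 * ‖jj (A / B - 1)‖ := by
      have h1 : (8 * ‖jj (A / B - 1)‖) ^ (2 ^ n) ≤ 8 * ‖jj (A / B - 1)‖ :=
        pow_le_of_le_one (by positivity) hub.le (by positivity)
      linarith
    obtain ⟨hY0, hz⟩ := ratio_norm (mul_ne_zero hC0 hA0) (mul_ne_zero hC0 hB0) ht hX hY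
      (by rw [hr]; linarith) (by rw [hr]; linarith)
    rw [hr] at hz
    have hzM : jj (X / Y - 1) ∈ M := by
      rw [map_sub, map_div₀, map_one]
      exact M.sub_mem (M.div_mem hXM hYM) M.one_mem
    have hz0 : jj (X / Y - 1) ≠ 0 := by
      intro h0
      rw [h0, norm_zero] at hz
      rw [← hz] at hlb
      norm_num at hlb
    obtain ⟨m, hm⟩ := finite_norm_dvd M D hMdvd _ hzM hz0
    refine ⟨m + 3 * D, ?_⟩
    rw [← hAB, ← pow_mul, mul_comm (2 ^ n) D, pow_mul, mul_pow, ← hz, hm]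
    congr 1
    rw [zpow_add₀ (by norm_num), zpow_mul]
    norm_num
    rw [mul_comm]
  -- contradiction
  have hωD : 0 < ω ^ D := pow_pos (by linarith) D
  have hωD1 : ω ^ D < 1 := pow_lt_one₀ (by linarith) hω2 hD.ne'
  obtain ⟨n, hn⟩ := exists_pow_lt_of_lt_one hωD (show (1 / 2 : ℝ) < 1 by norm_num)
  obtain ⟨l, hl⟩ := key n
  have hl1 : (2 : ℝ) ^ l < 1 := by
    by_contra hge
    push Not at hge
    have := one_le_pow₀ hge (n := 2 ^ n)
    linarith
  have hl2 : l ≤ -1 := by
    by_contra hge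
    push Not at hge
    have : 0 ≤ l := by omega
    have := one_le_zpow₀ (show (1 : ℝ) ≤ 2 by norm_num) this
    linarith
  have h3 : (2 : ℝ) ^ l ≤ 1 / 2 := by
    have := zpow_le_zpow_right₀ (show (1 : ℝ) ≤ 2 by norm_num) hl2
    rw [zpow_neg_one] at this
    linarith
  have h4 : ((2 : ℝ) ^ l) ^ (2 ^ n) ≤ (1 / 2) ^ (2 ^ n) := pow_le_pow_left₀ (by positivity) h3 _
  have h5 : (1 / 2 : ℝ) ^ (2 ^ n) ≤ (1 / 2) ^ n :=
    pow_le_pow_of_le_one (by norm_num) (by norm_num) Nat.lt_two_pow_self.le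
  rw [← hl] at h4
  linarith

/-- [G5b] -/
theorem Gam_degree (K : Type) [Field K] [NumberField K] [Algebra K Qb] (W : WeierstrassCurve Qb)
    [W.IsElliptic] (t : Qb) (ht : 32 ≤ ‖jj t‖) (n : ℕ) :
    ∃ R ∈ Gam t W, ∀ c : ℤ, c ≠ 0 → n < dg K (c • R) := by
  obtain ⟨R, hR, h⟩ := gens_degree W t ht (n * Module.finrank ℚ K)
  refine ⟨R, ⟨1, one_pos, by rw [one_smul]; exact AddSubgroup.subset_closure hR⟩, fun c hc => ?_⟩
  obtain ⟨u, hu, hN⟩ := h c hc
  by_contra hle
  push Not at hle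
  apply absurd hN
  push Not
  have hcds : cds (c • R) = crd (c • R) := by
    rcases c • R with _ | ⟨x, y, hxy⟩ <;> rfl
  set L := IntermediateField.adjoin K (cds (c • R)) with hL
  have hKalg : Algebra.IsAlgebraic K Qb := by
    have h0 : @Algebra.IsAlgebraic ℚ Qb _ _ (AlgebraicClosure.instAlgebra ℚ) :=
      AlgebraicClosure.isAlgebraic ℚ
    have h1 : Algebra.IsAlgebraic ℚ Qb := by
      have e : (DivisionRing.toRatAlgebra : Algebra ℚ Qb) = AlgebraicClosure.instAlgebra ℚ :=
        Subsingleton.elim _ _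
      rw [e]
      exact h0
    exact Algebra.IsAlgebraic.tower_top (K := ℚ) K
  have hfin : (cds (c • R)).Finite := by rw [hcds]; exact crd_finite _
  have hfd : FiniteDimensional K L := by
    have := hfin.to_subtype
    exact IntermediateField.finiteDimensional_adjoin
      (fun x _ => (Algebra.IsAlgebraic.isAlgebraic (R := K) x).isIntegral)
  have hfdQ : FiniteDimensional ℚ L := FiniteDimensional.trans ℚ K L
  have huL : u ∈ L := IntermediateField.subset_adjoin _ _ (by rw [hcds]; exact hu)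
  set u' : L := ⟨u, huL⟩ with hu'
  have h1 : (minpoly ℚ u').natDegree ≤ Module.finrank ℚ L := minpoly.natDegree_le u'
  have h2 : Module.finrank ℚ L ≤ n * Module.finrank ℚ K := by
    rw [← Module.finrank_mul_finrank ℚ K L, mul_comm]
    exact Nat.mul_le_mul_right _ hle
  refine le_trans ?_ (h1.trans h2)
  have h3 : (minpoly ℚ u').natDegree = ((minpoly ℚ u').map (algebraMap ℚ ℚ_[2])).natDegree := by
    rw [Polynomial.natDegree_map]
  rw [h3]
  apply Polynomial.natDegree_le_of_dvd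
  · apply minpoly.dvd
    rw [Polynomial.aeval_map_algebraMap]
    have h4 : Polynomial.aeval u' (minpoly ℚ u') = 0 := minpoly.aeval ℚ u'
    let g : L →+* L2 := jj.comp (algebraMap L Qb)
    have h5 : g.comp (algebraMap ℚ L) = algebraMap ℚ L2 := Subsingleton.elim _ _
    have h6 : Polynomial.aeval (g u') (minpoly ℚ u') = g (Polynomial.aeval u' (minpoly ℚ u')) := by
      rw [Polynomial.aeval_def, Polynomial.aeval_def, Polynomial.hom_eval₂, h5]
    rw [show jj u = g u' from rfl, h6, h4, map_zero]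
  · exact Polynomial.map_ne_zero (minpoly.ne_zero (Algebra.IsIntegral.isIntegral u'))

end Pool.Agent.LibGG
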