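import Pool.Agent.LibGG.Defs
import Pool.Agent.LibBH2.Df

/-!
[G6] ranks.
-/

open WeierstrassCurve Pool.Agent.LibBH2 Pool.Agent.LibIG50 Pool.Agent.LibCHd
open scoped Classical

namespace Pool.Agent.LibGG

theorem isGalois_Qb (K : Type) [Field K] [NumberField K] [Algebra K Qb] : IsGalois K Qb := by
  have h0 : @Algebra.IsAlgebraic ℚ Qb _ _ (AlgebraicClosure.instAlgebra ℚ) :=
    AlgebraicClosure.isAlgebraic ℚ
  have h1 : Algebra.IsAlgebraic ℚ Qb := by
    have e : (DivisionRing.toRatAlgebra : Algebra ℚ Qb) = AlgebraicClosure.instAlgebra ℚ :=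
      Subsingleton.elim _ _
    rw [e]
    exact h0
  have h2 : Algebra.IsAlgebraic K Qb := Algebra.IsAlgebraic.tower_top (K := ℚ) K
  have hac : IsAlgClosure K Qb := ⟨inferInstance, inferInstance⟩
  have hnorm : Normal K Qb := inferInstance
  infer_instance

theorem mem_range_of_fixed (K : Type) [Field K] [NumberField K] [Algebra K Qb] (z : Qb)
    (hz : ∀ σ : Qb ≃ₐ[K] Qb, σ z = z) : ∃ w : K, algebraMap K Qb w = z := by
  have := isGalois_Qb K
  have h1 : z ∈ (⊥ : IntermediateField K Qb) := by
    rw [InfiniteGalois.mem_bot_iff_fixed]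
    exact hz
  exact IntermediateField.mem_bot.1 h1

/-- [G6a] Galois descent for points -/
theorem exists_of_fixed (K : Type) [Field K] [NumberField K] [Algebra K Qb]
    (E : WeierstrassCurve K) (R : (E⁄Qb).toAffine.Point)
    (hR : ∀ σ : Qb ≃ₐ[K] Qb, gal σ R = R) : ∃ P : E.toAffine.Point, constPt Qb P = R := by
  match R, hR with
  | .zero, _ => exact ⟨.zero, rfl⟩
  | .some x y h, hR =>
    have hxy : ∀ σ : Qb ≃ₐ[K] Qb, σ x = x ∧ σ y = y := by
      intro σ
      have h1 := hR σ
      rw [gal, Affine.Point.map_some] at h1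
      simp only [Affine.Point.some.injEq] at h1
      exact h1
    obtain ⟨x', rfl⟩ := mem_range_of_fixed K x fun σ => (hxy σ).1
    obtain ⟨y', rfl⟩ := mem_range_of_fixed K y fun σ => (hxy σ).2
    exact ⟨.some x' y' ((Affine.map_nonsingular E (algebraMap K Qb).injective x' y').1 h), rfl⟩

theorem constPt_injective (K : Type) [Field K] [Algebra K Qb] (E : WeierstrassCurve K) :
    Function.Injective (constPt Qb : E.toAffine.Point → (E⁄Qb).toAffine.Point) := by
  intro P Q h
  match P, Q, h with
  | .zero, .zero, _ => rfl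
  | .zero, .some x y _, h => exact absurd h (by simp [constPt])
  | .some x y _, .zero, h => exact absurd h (by simp [constPt])
  | .some x y _, .some x' y' _, h =>
    have h1 := Affine.Point.some.inj h
    simp only [Affine.Point.some.injEq]
    exact ⟨(algebraMap K Qb).injective h1.1, (algebraMap K Qb).injective h1.2⟩

theorem constPt_add {K : Type} [Field K] [Algebra K Qb] {E : WeierstrassCurve K}
    (P Q : E.toAffine.Point) :
    (constPt Qb (P + Q) : (E⁄Qb).toAffine.Point) = constPt Qb P + constPt Qb Q := by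
  have h3 : ∀ P : E.toAffine.Point, (constPt Qb P : (E⁄Qb).toAffine.Point) =
      Df.mHom (algebraMap K Qb) E P := by
    intro P
    match P with
    | .zero => rfl
    | .some x y h => rfl
  rw [h3, h3, h3]
  exact map_add _ _ _

/-- points over `K` as points over `Qb` -/
noncomputable def cHom {K : Type} [Field K] [Algebra K Qb] (E : WeierstrassCurve K) :
    E.toAffine.Point →+ (E⁄Qb).toAffine.Point where
  toFun := constPt Qb
  map_zero' := rfl
  map_add' := constPt_add

/-- [G6b] -/
theorem rank_le {G B N : Type} [AddCommGroup G] [AddCommGroup B] [AddCommGroup N]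
    (α : G →+ B) (ψ : G →+ N) (h : ∀ g, ψ g = 0 → IsOfFinAddOrder (α g)) :
    Module.rank ℤ α.range ≤ Module.rank ℤ N := by
  rw [Module.rank_def ℤ α.range]
  refine ciSup_le' ?_
  rintro ⟨s, hs⟩
  choose g hg using fun b : s => b.1.2
  have hli : LinearIndependent ℤ (fun b : s => ψ (g b)) := by
    rw [linearIndependent_iff']
    intro t c hc b hb
    have h1 : ψ (∑ b ∈ t, c b • g b) = 0 := by
      rw [map_sum, ← hc]
      exact Finset.sum_congr rfl fun b _ => map_zsmul _ _ _
    have h2 := h _ h1
    rw [isOfFinAddOrder_iff_nsmul_eq_zero] at h2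
    obtain ⟨m, hm, h3⟩ := h2
    have h4 : ∑ b ∈ t, (m * c b : ℤ) • (b : α.range) = 0 := by
      apply Subtype.ext
      rw [AddSubgroup.coe_zero, ← h3, map_sum, Finset.smul_sum]
      rw [AddSubgroup.val_finsetSum]
      refine Finset.sum_congr rfl fun b _ => ?_
      rw [map_zsmul, hg b, mul_smul, AddSubgroup.coe_zsmul, AddSubgroup.coe_zsmul]
      simp
    have h5 := (linearIndependent_iff'.1 hs) t (fun b => (m * c b : ℤ)) h4 b hb
    rcases mul_eq_zero.1 h5 with h6 | h6
    · exact absurd (by exact_mod_cast h6) hm.ne'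
    · exact h6
  exact hli.cardinal_le_rank

theorem rank_pi_le (r : ℕ) : ∀ (F : Fin r → Type) [∀ i, AddCommGroup (F i)],
    Module.rank ℤ (∀ i, F i) ≤ ∑ i, Module.rank ℤ (F i) := by
  induction r with
  | zero =>
    intro F _
    have : Subsingleton (∀ i, F i) := ⟨fun a b => funext fun i => i.elim0⟩
    rw [rank_subsingleton']
    exact zero_le
  | succ r ih =>
    intro F _
    let p : (∀ i, F i) →ₗ[ℤ] F 0 := LinearMap.proj 0
    rw [← LinearMap.rank_range_add_rank_ker p, Fin.sum_univ_succ]
    refine add_le_add (Submodule.rank_le _) ?_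
    refine le_trans ?_ (ih fun i => F i.succ)
    let q : LinearMap.ker p →ₗ[ℤ] (∀ i : Fin r, F i.succ) :=
      (LinearMap.pi fun i => LinearMap.proj i.succ).comp (LinearMap.ker p).subtype
    apply LinearMap.rank_le_of_injective q
    intro a b hab
    apply Subtype.ext
    funext i
    refine Fin.cases ?_ (fun i => ?_) i
    · have ha : a.1 0 = 0 := a.2
      have hb : b.1 0 = 0 := b.2
      rw [ha, hb]
    · exact congrFun hab i

theorem rank_prod_le (A B : Type) [AddCommGroup A] [AddCommGroup B] :
    Module.rank ℤ (A × B) ≤ Module.rank ℤ A + Module.rank ℤ B := by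
  let p : A × B →ₗ[ℤ] A := LinearMap.fst ℤ A B
  rw [← LinearMap.rank_range_add_rank_ker p]
  refine add_le_add (Submodule.rank_le _) ?_
  let q : LinearMap.ker p →ₗ[ℤ] B := (LinearMap.snd ℤ A B).comp (LinearMap.ker p).subtype
  apply LinearMap.rank_le_of_injective q
  intro a b hab
  apply Subtype.ext
  have ha : a.1.1 = 0 := a.2
  have hb : b.1.1 = 0 := b.2
  exact Prod.ext (by rw [ha, hb]) hab

/-- the degree of a zero-cycle and its sum -/
noncomputable def dsum {K : Type} [Field K] [Algebra K Qb] {r : ℕ} (E : Fin r → WeierstrassCurve K) :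
    (Pts (fun i => (E i)⁄Qb) →₀ ℤ) →+ ℤ × ∀ i, ((E i)⁄Qb).toAffine.Point :=
  Finsupp.liftAddHom fun a => (zmultiplesHom _) (1, a)

theorem dsum_apply {K : Type} [Field K] [Algebra K Qb] {r : ℕ} (E : Fin r → WeierstrassCurve K)
    (c : Pts (fun i => (E i)⁄Qb) →₀ ℤ) :
    dsum E c = (c.sum fun _ n => n, fun i => c.sum fun a n => n • a i) := by
  have h1 : dsum E c = c.sum fun a n => n • ((1 : ℤ), a) := rfl
  rw [h1, Finsupp.sum]
  apply Prod.ext
  · rw [Prod.fst_sum]
    simp [Finsupp.sum]
  · rw [Prod.snd_sum]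
    funext i
    rw [Finset.sum_apply]
    rfl

/-- [G6c] -/
theorem rank_ZK (K : Type) [Field K] [NumberField K] [Algebra K Qb]
    (Γ : ∀ W : WeierstrassCurve Qb, AddSubgroup W.toAffine.Point) {r : ℕ}
    (E : Fin r → WeierstrassCurve K) {B : Type} [AddCommGroup B]
    (α : (Pts (fun i => (E i)⁄Qb) →₀ ℤ) →+ B)
    (hα : ∀ c, (∀ a ∈ c.support, ∀ i, a i ∈ Γ ((E i)⁄Qb)) → (c.sum fun _ n => n) = 0 →
      (∀ i, IsOfFinAddOrder (c.sum fun a n => n • a i)) → IsOfFinAddOrder (α c)) :
    Module.rank ℤ (AddSubgroup.closure (α '' ZK Γ E)) ≤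
      1 + ∑ i, Module.rank ℤ (E i).toAffine.Point := by
  -- the group of zero-cycles
  let Z : AddSubgroup (Pts (fun i => (E i)⁄Qb) →₀ ℤ) :=
    { carrier := ZK Γ E
      zero_mem' := ⟨fun a ha => by simp at ha, fun σ => Finsupp.mapDomain_zero⟩
      add_mem' := by
        rintro c c' ⟨h1, h2⟩ ⟨h3, h4⟩
        refine ⟨fun a ha i => ?_, fun σ => ?_⟩
        · rcases Finset.mem_union.1 (Finsupp.support_add ha) with h | h
          · exact h1 a h i
          · exact h3 a h i
        · rw [Finsupp.mapDomain_add, h2, h4]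
      neg_mem' := by
        rintro c ⟨h1, h2⟩
        refine ⟨fun a ha i => h1 a (by rwa [Finsupp.support_neg] at ha) i, fun σ => ?_⟩
        have h5 := (Finsupp.mapDomain.addMonoidHom
          (fun (a : Pts (fun i => (E i)⁄Qb)) i => gal σ (a i))).map_neg c
        change Finsupp.mapDomain _ (-c) = - Finsupp.mapDomain _ c at h5
        rw [h5, h2] }
  -- the fixed points
  let F : ∀ i, AddSubgroup ((E i)⁄Qb).toAffine.Point := fun i =>
    { carrier := {R | ∀ σ : Qb ≃ₐ[K] Qb, gal σ R = R}
      zero_mem' := fun σ => map_zero _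
      add_mem' := fun {a b} ha hb σ => by rw [map_add, ha σ, hb σ]
      neg_mem' := fun {a} ha σ => by rw [map_neg, ha σ] }
  have hF : ∀ c ∈ Z, ∀ i, (dsum E c).2 i ∈ F i := by
    intro c hc i σ
    have h1 : ∀ c : Pts (fun i => (E i)⁄Qb) →₀ ℤ,
        gal σ ((dsum E c).2 i) = (dsum E (c.mapDomain fun a i => gal σ (a i))).2 i := by
      intro c
      induction c using Finsupp.induction_linear with
      | zero => simp
      | add c c' h h' =>
        rw [Finsupp.mapDomain_add, map_add, map_add, Prod.snd_add, Prod.snd_add, Pi.add_apply,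
          Pi.add_apply, map_add, h, h']
      | single a n =>
        rw [Finsupp.mapDomain_single]
        have h2 : ∀ a : Pts (fun i => (E i)⁄Qb), dsum E (Finsupp.single a n) = n • ((1 : ℤ), a) := by
          intro a
          simp [dsum]
        rw [h2, h2]
        change gal σ (n • a i) = n • gal σ (a i)
        exact map_zsmul _ _ _
    rw [h1, hc.2 σ]
  let ψ : Z →+ ℤ × ∀ i, F i :=
    { toFun := fun c => ((dsum E c.1).1, fun i => ⟨(dsum E c.1).2 i, hF c.1 c.2 i⟩)
      map_zero' := by
        apply Prod.ext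
        · simp
        · funext i
          apply Subtype.ext
          simp
      map_add' := by
        intro c c'
        apply Prod.ext
        · simp
        · funext i
          apply Subtype.ext
          simp }
  have h1 : Module.rank ℤ (α.comp Z.subtype).range ≤ Module.rank ℤ (ℤ × ∀ i, F i) := by
    apply rank_le _ ψ
    intro c hc
    have h2 : (dsum E c.1).1 = 0 := congrArg Prod.fst hc
    have h3 : ∀ i, (dsum E c.1).2 i = 0 := fun i =>
      congrArg Subtype.val (congrFun (congrArg Prod.snd hc) i)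
    rw [dsum_apply] at h2 h3
    refine hα c.1 c.2.1 h2 fun i => ?_
    have h4 := h3 i
    change (c.1.sum fun a n => n • a i) = 0 at h4
    rw [h4]
    exact IsOfFinAddOrder.zero
  have h2 : AddSubgroup.closure (α '' ZK Γ E) = (α.comp Z.subtype).range := by
    apply le_antisymm
    · rw [AddSubgroup.closure_le]
      rintro _ ⟨c, hc, rfl⟩
      exact ⟨⟨c, hc⟩, rfl⟩
    · rintro _ ⟨c, rfl⟩
      exact AddSubgroup.subset_closure ⟨c.1, c.2, rfl⟩
  rw [h2]
  refine h1.trans ((rank_prod_le _ _).trans ?_)
  rw [Module.rank_self]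
  refine add_le_add le_rfl ((rank_pi_le r _).trans ?_)
  refine Finset.sum_le_sum fun i _ => ?_
  -- F i is the group of points over K
  choose g hg using fun R : F i => exists_of_fixed K (E i) R.1 R.2
  let γ : F i →+ (E i).toAffine.Point :=
    { toFun := g
      map_zero' := by
        apply constPt_injective
        rw [hg]
        rfl
      map_add' := by
        intro R S
        apply constPt_injective
        rw [constPt_add, hg, hg, hg]
        rfl }
  apply LinearMap.rank_le_of_injective γ.toIntLinearMap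
  intro R S h
  apply Subtype.ext
  rw [← hg R, ← hg S]
  exact congrArg _ h

end Pool.Agent.LibGG
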