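import Pool.Agent.LibGG.Defs

/-!
The properties of a choice `Γ` of a subgroup of the group of points of every elliptic curve over the
algebraic numbers.
-/

open WeierstrassCurve Pool.Agent.LibBH2 Pool.Agent.LibIG50 Pool.Agent.LibCHd
open scoped Classical

namespace Pool.Agent.LibGG

/-- a choice of a subgroup of the group of points of every curve over `Qb` -/
abbrev Grid : Type := ∀ W : WeierstrassCurve Qb, AddSubgroup W.toAffine.Point

/-- all the groups `Γ W`, `W` elliptic, have infinite rank and are saturated -/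
def InfRank (Γ : Grid) : Prop :=
  ∀ W : WeierstrassCurve Qb, W.IsElliptic → (∃ Q : ℕ → Γ W, LinearIndependent ℤ Q) ∧
    ∀ (R : W.toAffine.Point) (n : ℕ), n ≠ 0 → n • R ∈ Γ W → R ∈ Γ W

/-- for all elliptic curves `E` over `K` the group `Γ E` is stable under the Galois group of `K`, and
for all `n` it contains a point all of whose non-zero multiples have degree `> n` over `K` -/
def Stable (K : Type) [Field K] [Algebra K Qb] (Γ : Grid) : Prop :=
  ∀ E : WeierstrassCurve K, E.IsElliptic →
    (∀ (σ : Qb ≃ₐ[K] Qb), ∀ R ∈ Γ (E⁄Qb), gal σ R ∈ Γ (E⁄Qb)) ∧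
    ∀ n : ℕ, ∃ R ∈ Γ (E⁄Qb), ∀ c : ℤ, c ≠ 0 → n < dg K (c • R)

/-- for all products `X` of elliptic curves `W_i` over `Qb`, all projective `Y` and all cycles `Z` on
`X × Y` (`Z` the cycle of the point `u`, of dimension `d`) the cycle `c * Z` is torsion in the Chow group
for all zero-cycles `c` on `X` of degree zero with torsion sum in every `W_i`, supported on the
product of the groups `Γ W_i` -/
def Orth (Γ : Grid) : Prop :=
  ∀ (r : ℕ) (W : Fin r → WeierstrassCurve Qb), (∀ i, (W i).IsElliptic) →
    ∀ (Y : Prj Qb) (d : ℕ) (M : Type) [Field M] [Algebra Qb M], FunF Qb d M →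
    ∀ (u : Pnt W Y M) (c : Pts W →₀ ℤ), (∀ a ∈ c.support, ∀ i, a i ∈ Γ (W i)) →
      (c.sum fun _ n => n) = 0 → (∀ i, IsOfFinAddOrder (c.sum fun a n => n • a i)) →
      IsOfFinAddOrder (act d c u)

/-- for all products `X` of elliptic curves `E_i` over `K`, all projective `Y` and all cycles `Z` on
`X × Y` (`Z` the cycle of the point `u`, of dimension `d`) the classes of the cycles `c * Z`, where `c`
runs through the zero-cycles of `X` over `K` which are supported on the product of the groups
`Γ E_i`, generate a group of rank at most `1 + ∑ rank E_i(K)` -/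
def FinSpan (K : Type) [Field K] [Algebra K Qb] (Γ : Grid) : Prop :=
  ∀ (r : ℕ) (E : Fin r → WeierstrassCurve K), (∀ i, (E i).IsElliptic) →
    ∀ (Y : Prj Qb) (d : ℕ) (M : Type) [Field M] [Algebra Qb M], FunF Qb d M →
    ∀ u : Pnt (fun i => (E i)⁄Qb) Y M,
      Module.rank ℤ (AddSubgroup.closure ((fun c => act d c u) '' ZK Γ E)) ≤
        1 + ∑ i, Module.rank ℤ (E i).toAffine.Point

end Pool.Agent.LibGG
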