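import Pool.Agent.LibGG.G1
import Pool.Agent.LibGG.G4
import Pool.Agent.LibGG.G5
import Pool.Agent.LibGG.G6
import Pool.Agent.LibCHd.Key
import Pool.Agent.LibGG.Stmt

/-!
Galois-stable grids of infinite rank.
-/

open WeierstrassCurve Pool.Agent.LibBH2 Pool.Agent.LibIG50 Pool.Agent.LibCHd
open scoped Classical

namespace Pool.Agent.LibGG

theorem gg (K : Type) [Field K] [NumberField K] [Algebra K Qb] (E₀ : WeierstrassCurve K)
    [E₀.IsElliptic] (T P : E₀.toAffine.Point) (hT : T ≠ 0) (hT' : 2 • T = 0) :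
    ∃ Γ : ∀ W : WeierstrassCurve Qb, AddSubgroup W.toAffine.Point,
      constPt Qb P ∈ Γ (E₀⁄Qb) ∧
      (∀ W : WeierstrassCurve Qb, W.IsElliptic → (∃ Q : ℕ → Γ W, LinearIndependent ℤ Q) ∧
        ∀ (R : W.toAffine.Point) (n : ℕ), n ≠ 0 → n • R ∈ Γ W → R ∈ Γ W) ∧
      (∀ E : WeierstrassCurve K, E.IsElliptic →
        (∀ (σ : Qb ≃ₐ[K] Qb), ∀ R ∈ Γ (E⁄Qb), gal σ R ∈ Γ (E⁄Qb)) ∧
        ∀ n : ℕ, ∃ R ∈ Γ (E⁄Qb), ∀ c : ℤ, c ≠ 0 → n < dg K (c • R)) ∧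
      (∀ (r : ℕ) (W : Fin r → WeierstrassCurve Qb), (∀ i, (W i).IsElliptic) →
        ∀ (Y : Prj Qb) (d : ℕ) (M : Type) [Field M] [Algebra Qb M], FunF Qb d M →
        ∀ (u : Pnt W Y M) (c : Pts W →₀ ℤ), (∀ a ∈ c.support, ∀ i, a i ∈ Γ (W i)) →
          (c.sum fun _ n => n) = 0 → (∀ i, IsOfFinAddOrder (c.sum fun a n => n • a i)) →
          IsOfFinAddOrder (act d c u)) ∧
      ∀ (r : ℕ) (E : Fin r → WeierstrassCurve K), (∀ i, (E i).IsElliptic) →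
        ∀ (Y : Prj Qb) (d : ℕ) (M : Type) [Field M] [Algebra Qb M], FunF Qb d M →
        ∀ u : Pnt (fun i => (E i)⁄Qb) Y M,
          Module.rank ℤ (AddSubgroup.closure ((fun c => act d c u) '' ZK Γ E)) ≤
            1 + ∑ i, Module.rank ℤ (E i).toAffine.Point := by
  obtain ⟨t, ht, hst, hP⟩ := exists_t K E₀ T P hT hT'
  have h4 : ∀ (r : ℕ) (W : Fin r → WeierstrassCurve Qb), (∀ i, (W i).IsElliptic) →
      ∀ (Y : Prj Qb) (d : ℕ) (M : Type) [Field M] [Algebra Qb M], FunF Qb d M →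
      ∀ (u : Pnt W Y M) (c : Pts W →₀ ℤ), (∀ a ∈ c.support, ∀ i, a i ∈ Gam t (W i)) →
        (c.sum fun _ n => n) = 0 → (∀ i, IsOfFinAddOrder (c.sum fun a n => n • a i)) →
        IsOfFinAddOrder (act d c u) := by
    intro r W hW Y d M _ _ hM u c hc h0 hs
    exact act_torsion hW hM u c
      (cls_torsion W (fun i => Gam t (W i)) (fun i j _ P hP Q hQ => Gam_zc hP hQ) c hc h0 hs)
  refine ⟨Gam t, hP, fun W hW => ⟨Gam_rank W t ht, fun R n hn hR => ?_⟩, fun E hE => ⟨fun σ R hR => Gam_gal t hst E σ hR,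
    fun n => ?_⟩, h4, fun r E hE Y d M _ _ hM u => ?_⟩
  · obtain ⟨m, hm, h⟩ := hR
    refine ⟨m * n, Nat.mul_pos hm (Nat.pos_of_ne_zero hn), ?_⟩
    rw [mul_smul]
    exact h
  · have : (E⁄Qb).IsElliptic := inferInstanceAs (E.map (algebraMap K Qb)).IsElliptic
    exact Gam_degree K (E⁄Qb) t ht n
  · have hE' : ∀ i, ((E i)⁄Qb).IsElliptic := fun i =>
      inferInstanceAs ((E i).map (algebraMap K Qb)).IsElliptic
    exact rank_ZK K (Gam t) E ((QuotientAddGroup.mk' (RatEq _ Y d)).comp (actC u))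
      (fun c hc h0 hs => h4 r _ hE' Y d M hM u c hc h0 hs)

theorem gg2 (K : Type) [Field K] [NumberField K] [Algebra K Qb] (E₀ : WeierstrassCurve K)
    [E₀.IsElliptic] (T P : E₀.toAffine.Point) (hT : T ≠ 0) (hT' : 2 • T = 0) :
    ∃ Γ : Grid, constPt Qb P ∈ Γ (E₀⁄Qb) ∧ InfRank Γ ∧ Stable K Γ ∧ Orth Γ ∧ FinSpan K Γ := by
  obtain ⟨Γ, h1, h2, h3, h4, h5⟩ := gg K E₀ T P hT hT'
  exact ⟨Γ, h1, h2, h3, @h4, @h5⟩

end Pool.Agent.LibGG
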