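import Pool.Agent.LibCHd.Defs
import Pool.Agent.LibBH2.Curves

/-!
Points of elliptic curves over number fields: degrees, Galois action, zero-cycles over the number
field.
-/

open WeierstrassCurve Pool.Agent.LibBH2 Pool.Agent.LibIG50 Pool.Agent.LibCHd
open scoped Classical

namespace Pool.Agent.LibGG

/-- the coordinates of a point -/
def cds {W : WeierstrassCurve Qb} : W.toAffine.Point → Set Qb
  | .zero => ∅
  | .some x y _ => {x, y}

variable (K : Type) [Field K] [Algebra K Qb]

/-- the degree over `K` of a point: the degree of the field generated by its coordinates (the degree of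
the closed point below it) -/
noncomputable def dg {W : WeierstrassCurve Qb} (R : W.toAffine.Point) : ℕ :=
  Module.finrank K (IntermediateField.adjoin K (cds R))

variable {K}

/-- the action of an automorphism of `Qb` over `K` on the points of a curve defined over `K` -/
noncomputable def gal {E : WeierstrassCurve K} (σ : Qb ≃ₐ[K] Qb) :
    (E⁄Qb).toAffine.Point →+ (E⁄Qb).toAffine.Point :=
  Affine.Point.map (σ : Qb →ₐ[K] Qb)

/-- the zero-cycles over `K` on `E_1 × ... × E_r` (the zero-cycles on the geometric points which are
invariant under the Galois group: integral combinations of closed points), supported on the product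
of the groups `Γ E_i` -/
def ZK (Γ : ∀ W : WeierstrassCurve Qb, AddSubgroup W.toAffine.Point) {r : ℕ}
    (E : Fin r → WeierstrassCurve K) : Set (Pts (fun i => (E i)⁄Qb) →₀ ℤ) :=
  {c | (∀ a ∈ c.support, ∀ i, a i ∈ Γ ((E i)⁄Qb)) ∧
    ∀ σ : Qb ≃ₐ[K] Qb, c.mapDomain (fun a i => gal σ (a i)) = c}

end Pool.Agent.LibGG
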