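import Pool.Agent.LibGG.Defs
import Pool.Agent.LibIG50.Main

/-!
[G1]-[G3] the Galois group permutes the subgroups `Gam t W`.
-/

open WeierstrassCurve Pool.Agent.LibBH2 Pool.Agent.LibIG50 Pool.Agent.LibCHd
open scoped Classical

namespace Pool.Agent.LibGG

/-- the algebra structure conjugate under `s` -/
noncomputable abbrev cjAlg (s : Qb ≃+* Qb) {K : Type} [Field K] (i : Algebra Qb K) : Algebra Qb K :=
  ((algebraMap Qb K).comp (s : Qb →+* Qb)).toAlgebra

/-- a place, seen as a place for the conjugate algebra structure -/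
def cjPlace (s : Qb ≃+* Qb) {K : Type} [Field K] [i : Algebra Qb K] (v : Place Qb K) :
    @Place Qb K _ _ (cjAlg s i) :=
  @Place.mk Qb K _ _ (cjAlg s i) v.ord v.ord_zero v.ord_mul v.ord_add
    (fun c hc => v.ord_const (s c) (fun h => hc (s.injective (by rw [h, map_zero]))))
    v.exists_uniformizer

theorem spec_conj (s : Qb ≃+* Qb) {K : Type} [Field K] [i : Algebra Qb K] (v : Place Qb K)
    (W : WeierstrassCurve Qb) (T : ((W.map (s : Qb →+* Qb))⁄K).toAffine.Point)
    (q : W.toAffine.Point) :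
    Spec v T (Df.mHom (s : Qb →+* Qb) W q) ↔ @Spec Qb _ K _ (cjAlg s i) (cjPlace s v) W T q := by
  rcases T with _ | ⟨x, y, n⟩
  · rcases q with _ | ⟨x₀, y₀, n₀⟩
    · exact ⟨fun _ => rfl, fun _ => rfl⟩
    · constructor
      · intro h
        have h' : Df.mHom (s : Qb →+* Qb) W (Affine.Point.some x₀ y₀ n₀) = 0 := h
        rw [Df.mHom_some] at h'
        exact absurd h' (Affine.Point.some_ne_zero _)
      · intro h
        have h' : (Affine.Point.some x₀ y₀ n₀ : W.toAffine.Point) = 0 := h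
        exact absurd h' (Affine.Point.some_ne_zero _)
  · rcases q with _ | ⟨x₀, y₀, n₀⟩
    · exact Iff.rfl
    · exact Iff.rfl

theorem mHom_bijective (s : Qb ≃+* Qb) (W : WeierstrassCurve Qb) :
    Function.Bijective (Df.mHom (s : Qb →+* Qb) W) := by
  constructor
  · rintro (_ | ⟨x, y, n⟩) (_ | ⟨x', y', n'⟩) h
    · rfl
    · exact absurd h.symm (Affine.Point.some_ne_zero _)
    · exact absurd h (Affine.Point.some_ne_zero _)
    · rw [Df.mHom_some, Df.mHom_some, Affine.Point.some.injEq] at h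
      have h1 : x = x' := s.injective h.1
      have h2 : y = y' := s.injective h.2
      subst h1
      subst h2
      rfl
  · rintro (_ | ⟨x, y, n⟩)
    · exact ⟨0, rfl⟩
    · have n' : W.toAffine.Nonsingular (s.symm x) (s.symm y) := by
        rw [← Affine.map_nonsingular W (f := (s : Qb →+* Qb)) s.injective]
        have e1 : (s : Qb →+* Qb) (s.symm x) = x := s.apply_symm_apply x
        have e2 : (s : Qb →+* Qb) (s.symm y) = y := s.apply_symm_apply y
        rw [e1, e2]
        exact n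
      refine ⟨Affine.Point.some _ _ n', ?_⟩
      rw [Df.mHom_some, Affine.Point.some.injEq]
      exact ⟨s.apply_symm_apply x, s.apply_symm_apply y⟩

/-- [G1] conjugate of an algebraic map. Proof. `f' = mHom s W' ∘ f ∘ (mHom s W)⁻¹`. Let `K` be a field
with `a : Qb → K` (the algebra structure) and `T` a `K`-point of `W.map s`; `(W.map s).map a =
W.map (a.comp s)` is `rfl`, so `T` is a `K`-point of `W` for the algebra structure `a.comp s` on `K`.
A place of `K` for `a` is a place for `a.comp s` (same `ord`), and `Spec` for the two structures differ by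
`s` on the values. Apply `hf`. -/
theorem algMap_conj (s : Qb ≃+* Qb) {W W' : WeierstrassCurve Qb}
    (f : W.toAffine.Point → W'.toAffine.Point) (hf : AlgMap W W' f) :
    ∃ f' : (W.map (s : Qb →+* Qb)).toAffine.Point → (W'.map (s : Qb →+* Qb)).toAffine.Point,
      AlgMap (W.map (s : Qb →+* Qb)) (W'.map (s : Qb →+* Qb)) f' ∧
      ∀ R, f' (Df.mHom (s : Qb →+* Qb) W R) = Df.mHom (s : Qb →+* Qb) W' (f R) := by
  let e := Equiv.ofBijective _ (mHom_bijective s W)
  have he : ∀ q, e q = Df.mHom (s : Qb →+* Qb) W q := fun q => rfl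
  have hes : ∀ q, e.symm (Df.mHom (s : Qb →+* Qb) W q) = q := fun q => by
    rw [← he, e.symm_apply_apply]
  refine ⟨fun p => Df.mHom (s : Qb →+* Qb) W' (f (e.symm p)), ⟨?_, ?_⟩, fun R => ?_⟩
  · have h1 : e.symm 0 = 0 := by
      have h2 := hes 0
      rwa [map_zero] at h2
    dsimp only
    rw [h1, hf.1, map_zero]
  · intro K _ i T
    have hf2 := hf.2
    obtain ⟨T', hT'⟩ := @hf2 K _ (cjAlg s i) T
    refine ⟨T', fun v p hp => ?_⟩
    obtain ⟨q, rfl⟩ := (mHom_bijective s W).2 p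
    have h1 := (spec_conj s v W T q).1 hp
    have h2 := (spec_conj s v W' T' (f q)).2 (hT' (cjPlace s v) q h1)
    dsimp only
    rw [hes]
    exact h2
  · dsimp only
    rw [hes]

/-- [G2] Proof. `x ↦ 1 - x`, `y ↦ i y` is an isomorphism `lg lam → lg (1 - lam)` (a change of
coordinates: `TD1.Rel (lg lam) (lg (1 - lam)) u r 0 0` with `u ^ 2 = -1`, `r = 1`; it is an `AlgMap`
by `TD1.vc_algMap`), which maps abscissa `1 - t` to abscissa `t`. -/
theorem gens_one_sub (t : Qb) (W : WeierstrassCurve Qb) : gens (1 - t) W ⊆ gens t W := by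
  rintro R ⟨lam, y, h, f, hl0, hl1, hf, rfl⟩
  obtain ⟨u, hu⟩ := IsAlgClosed.exists_pow_nat_eq (-1 : Qb) (n := 2) (by norm_num)
  have hu0 : u ≠ 0 := by
    rintro rfl
    norm_num at hu
  have hu4 : u ^ 4 = 1 := by
    have h1 : u ^ 4 = (u ^ 2) ^ 2 := by ring
    rw [h1, hu]
    norm_num
  have hR : TD1.Rel (lg (1 - lam)) (lg lam) u 1 0 0 := by
    refine ⟨hu0, ?_, ?_, ?_, ?_, ?_⟩
    · show u * 0 = 0 + 2 * 0
      ring
    · show u ^ 2 * (-(1 + (1 - lam))) = -(1 + lam) - 0 * 0 + 3 * 1 - 0 ^ 2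
      rw [hu]
      ring
    · show u ^ 3 * 0 = 0 + 1 * 0 + 2 * 0
      ring
    · show u ^ 4 * (1 - lam) = lam - 0 * 0 + 2 * 1 * (-(1 + lam)) - (0 + 1 * 0) * 0 + 3 * 1 ^ 2 -
        2 * 0 * 0
      rw [hu4]
      ring
    · show u ^ 6 * 0 = 0 + 1 * lam + 1 ^ 2 * (-(1 + lam)) + 1 ^ 3 - 0 * 0 - 0 ^ 2 - 1 * 0 * 0
      ring
  have ex : u ^ 2 * t + 1 = 1 - t := by
    rw [hu]
    ring
  have ey : u ^ 3 * (u * y) + 0 * u ^ 2 * t + 0 = y := by
    linear_combination y * hu4
  have n' : (lg (1 - lam)).toAffine.Nonsingular t (u * y) := by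
    rw [← TD1.nons_iff hR, ex, ey]
    exact h
  refine ⟨1 - lam, u * y, n', f ∘ TD1.vc hR, ?_, ?_, hf.comp (TD1.vc_algMap hR), ?_⟩
  · intro h1
    exact hl1 (sub_eq_zero.1 h1).symm
  · intro h1
    exact hl0 (by linear_combination -h1)
  · rw [Function.comp_apply, TD1.vc_some]
    congr 1
    rw [Affine.Point.some.injEq]
    exact ⟨ex.symm, ey.symm⟩

/-- [G3] Proof. `s` maps `gens t W` to `gens (s t) (W.map s)` ([G1], `(lg lam).map s = lg (s lam)`,
`exists_lgHom`), and `gens (s t) = gens t` by the hypothesis and [G2]; then closure and saturation. -/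
theorem Gam_conj (s : Qb ≃+* Qb) (t : Qb) (hst : s t = t ∨ s t = 1 - t)
    {W W' : WeierstrassCurve Qb} (hW : W.map (s : Qb →+* Qb) = W')
    (g : W.toAffine.Point →+ W'.toAffine.Point)
    (hg : ∀ (x y : Qb) (h : W.toAffine.Nonsingular x y), ∃ h' : W'.toAffine.Nonsingular (s x) (s y),
      g (Affine.Point.some x y h) = Affine.Point.some (s x) (s y) h')
    {R : W.toAffine.Point} (hR : R ∈ Gam t W) : g R ∈ Gam t W' := by
  subst hW
  have hgm : ∀ P, g P = Df.mHom (s : Qb →+* Qb) W P := by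
    rintro (_ | ⟨x, y, n⟩)
    · exact map_zero g
    · obtain ⟨h', e⟩ := hg x y n
      rw [e]
      rfl
  obtain ⟨n, hn, hR⟩ := hR
  refine ⟨n, hn, ?_⟩
  rw [← map_nsmul]
  have h2 : AddSubgroup.closure (gens t W) ≤
      (AddSubgroup.closure (gens t (W.map (s : Qb →+* Qb)))).comap g := by
    rw [AddSubgroup.closure_le]
    rintro R ⟨lam, y, h, f, hl0, hl1, hf, rfl⟩
    refine AddSubgroup.subset_closure ?_
    obtain ⟨f', hf', hff⟩ := algMap_conj s f hf
    rw [hgm, ← hff, Df.mHom_some]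
    have key : ∀ (V : WeierstrassCurve Qb) (_ : V = lg (s lam))
        (f' : V.toAffine.Point → (W.map (s : Qb →+* Qb)).toAffine.Point)
        (_ : AlgMap V (W.map (s : Qb →+* Qb)) f') (y : Qb) (h : V.toAffine.Nonsingular (s t) y),
        f' (Affine.Point.some (s t) y h) ∈ gens (s t) (W.map (s : Qb →+* Qb)) := by
      rintro V rfl f' hf' y h
      exact ⟨s lam, y, h, f', fun h0 => hl0 (s.injective (by rw [h0, map_zero])),
        fun h0 => hl1 (s.injective (by rw [h0, map_one])), hf', rfl⟩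
    have h3 := key _ (lg_map (s : Qb →+* Qb) lam) f' hf' (s y)
      ((Affine.map_nonsingular (lg lam) s.injective t y).2 h)
    rcases hst with hst | hst
    · have h4 : gens (s t) (W.map (s : Qb →+* Qb)) = gens t (W.map (s : Qb →+* Qb)) := by
        rw [hst]
      rw [← h4]
      exact h3
    · apply gens_one_sub
      have h4 : gens (s t) (W.map (s : Qb →+* Qb)) = gens (1 - t) (W.map (s : Qb →+* Qb)) := by
        rw [hst]
      rw [← h4]
      exact h3
  exact h2 hR

/-- [G3'] -/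
theorem Gam_gal {K : Type} [Field K] [Algebra K Qb] (t : Qb)
    (hst : ∀ σ : Qb ≃ₐ[K] Qb, σ t = t ∨ σ t = 1 - t) (E : WeierstrassCurve K)
    (σ : Qb ≃ₐ[K] Qb) {R : (E⁄Qb).toAffine.Point} (hR : R ∈ Gam t (E⁄Qb)) :
    gal σ R ∈ Gam t (E⁄Qb) := by
  refine Gam_conj σ.toRingEquiv t (hst σ) ?_ (gal σ) ?_ hR
  · have h1 : ((σ.toRingEquiv : Qb →+* Qb).comp (algebraMap K Qb)) = algebraMap K Qb := by
      ext c
      exact σ.commutes c
    show (E.map (algebraMap K Qb)).map _ = E.map (algebraMap K Qb)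
    rw [WeierstrassCurve.map_map, h1]
  · intro x y h
    exact ⟨_, rfl⟩

end Pool.Agent.LibGG
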